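import Pool.Agent.P8H51.UB.Stm

/-! Package POLY of the project UB: Mason's inequality for products of small spread. -/

set_option autoImplicit false

namespace Pool.Agent.P8H71.UB

open Polynomial Pool.Agent.P8H51.UB

variable {K : Type} [Field K]

theorem dvd_prod_pow {ι : Type} (s : Finset ι) (a : ι → K[X]) (e : ι → ℕ) :
    (∏ j ∈ s, a j ^ (e j - 1)) ∣ (∏ j ∈ s, a j ^ e j) ∧
    (∏ j ∈ s, a j ^ (e j - 1)) ∣ derivative (∏ j ∈ s, a j ^ e j) := by
  classical
  induction s using Finset.induction_on with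
  | empty => simp
  | insert i s hi ih =>
    rw [Finset.prod_insert hi, Finset.prod_insert hi, derivative_mul]
    have h1 : a i ^ (e i - 1) ∣ a i ^ e i := pow_dvd_pow _ (Nat.sub_le _ _)
    have h2 : a i ^ (e i - 1) ∣ derivative (a i ^ e i) := by
      rw [derivative_pow]
      exact Dvd.dvd.mul_right (Dvd.intro_left _ rfl) _
    exact ⟨mul_dvd_mul h1 ih.1, dvd_add (mul_dvd_mul h2 ih.1) (mul_dvd_mul h1 ih.2)⟩

/-- the repeated part -/
noncomputable def RR {D : ℕ} (E : Fin 3 → Fin (D + 1) → ℕ) (p : Fin 3 → K[X]) (σ : Fin 3) : K[X] :=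
  ∏ j : Fin (D + 1), (p σ + C ((j : ℕ) : K)) ^ (E σ j - 1)

theorem sq_dvd_of_dvd_RR {D : ℕ} (E : Fin 3 → Fin (D + 1) → ℕ) (p : Fin 3 → K[X]) (σ : Fin 3)
    (π : K[X]) (hπ : Prime π) (h : π ∣ RR E p σ) : π ^ 2 ∣ PP E p σ := by
  obtain ⟨j, -, hj⟩ := (Prime.dvd_finsetProd_iff hπ _).1 h
  have hE : E σ j - 1 ≠ 0 := by
    intro h0
    rw [h0, pow_zero] at hj
    exact hπ.not_isUnit (isUnit_of_dvd_one hj)
  have h1 : π ∣ p σ + C ((j : ℕ) : K) := hπ.dvd_of_dvd_pow hj
  have h2 : π ^ 2 ∣ (p σ + C ((j : ℕ) : K)) ^ E σ j :=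
    (pow_dvd_pow_of_dvd h1 2).trans (pow_dvd_pow _ (by omega))
  unfold PP
  exact h2.trans (Finset.dvd_prod_of_mem
    (fun i : Fin (D + 1) => (p σ + C ((i : ℕ) : K)) ^ E σ i) (Finset.mem_univ j))

/-- two polynomials with zero Wronskian are constant multiples of one polynomial -/
theorem wronskian_zero [CharZero K] (a b : K[X]) (hb : b ≠ 0) (h : wronskian a b = 0) :
    ∃ (g : K[X]) (α β : K), a = C α * g ∧ b = C β * g := by
  classical
  obtain ⟨g, a₁, b₁, hg, hcop, ha₁, hb₁⟩ : ∃ g a₁ b₁ : K[X], g ≠ 0 ∧ IsCoprime a₁ b₁ ∧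
      a = g * a₁ ∧ b = g * b₁ := by
    have hg : GCDMonoid.gcd a b ≠ 0 := gcd_ne_zero_of_right hb
    refine ⟨GCDMonoid.gcd a b, a / GCDMonoid.gcd a b, b / GCDMonoid.gcd a b, hg,
      isCoprime_div_gcd_div_gcd hb, ?_, ?_⟩
    · exact (EuclideanDomain.mul_div_cancel' hg (gcd_dvd_left _ _)).symm
    · exact (EuclideanDomain.mul_div_cancel' hg (gcd_dvd_right _ _)).symm
  have h1 : g ^ 2 * wronskian a₁ b₁ = 0 := by
    rw [← h, ha₁, hb₁]
    simp only [wronskian, derivative_mul]
    ring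
  have h2 : wronskian a₁ b₁ = 0 := (mul_eq_zero.1 h1).resolve_left (pow_ne_zero 2 hg)
  obtain ⟨h3, h4⟩ := hcop.wronskian_eq_zero_iff.1 h2
  have h5 := Polynomial.derivative_eq_zero.1 h3
  have h6 := Polynomial.derivative_eq_zero.1 h4
  rw [natDegree_eq_zero] at h5 h6
  obtain ⟨α, hα⟩ := h5
  obtain ⟨β, hβ⟩ := h6
  exact ⟨g, α, β, by rw [ha₁, ← hα, mul_comm], by rw [hb₁, ← hβ, mul_comm]⟩

theorem poly : S_POLY := by
  intro K _ _ D E n s u p hu hn hs hns hsum hP hrel hsq
  classical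
  -- the terms
  set P : Fin 3 → K[X] := fun σ => PP E p σ with hPdef
  set Q : Fin 3 → K[X] := fun σ => C (u σ) * P σ with hQdef
  have hCu : ∀ σ, IsUnit (C (u σ) : K[X]) := fun σ => isUnit_C.2 (isUnit_iff_ne_zero.2 (hu σ))
  have hQ0 : ∀ σ, Q σ ≠ 0 := fun σ => mul_ne_zero (hCu σ).ne_zero (hP σ)
  have hrel3 : Q 0 + Q 1 + Q 2 = 0 := by
    have := hrel
    rwa [Fin.sum_univ_three] at this
  have hfac : ∀ σ (j : Fin (D + 1)), 1 ≤ E σ j → p σ + C ((j : ℕ) : K) ≠ 0 := by
    intro σ j hj h0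
    apply hP σ
    rw [PP]
    refine Finset.prod_eq_zero (Finset.mem_univ j) ?_
    rw [h0, zero_pow (by omega)]
  -- the number of factors
  set N : Fin 3 → ℕ := fun σ => (Finset.univ.filter fun j : Fin (D + 1) => 1 ≤ E σ j).card with hN
  have hNs : ∀ σ, N σ ≤ 1 + s σ := by
    intro σ
    have h1 : (Finset.univ.filter fun j : Fin (D + 1) => 1 ≤ E σ j).card ≤
        (Finset.range (s σ + 1)).card := by
      refine Finset.card_le_card_of_injOn (fun j => (j : ℕ)) ?_ ?_
      · intro j hj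
        simp only [Finset.coe_filter, Finset.mem_univ, true_and, Set.mem_ofPred_eq] at hj
        simp only [Finset.coe_range, Set.mem_Iio]
        by_contra hlt
        have := hs σ j (by omega)
        omega
      · intro j _ k _ hjk
        exact Fin.ext hjk
    rw [Finset.card_range] at h1
    simp only [hN]
    omega
  have hEN : ∀ σ, ∑ j, (E σ j - 1) + N σ = n σ := by
    intro σ
    rw [← hn σ, hN]
    simp only
    rw [Finset.card_filter, ← Finset.sum_add_distrib]
    refine Finset.sum_congr rfl fun j _ => ?_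
    split_ifs with h <;> omega
  -- degrees
  have hdegf : ∀ σ (j : Fin (D + 1)), (p σ + C ((j : ℕ) : K)).natDegree = (p σ).natDegree :=
    fun σ j => natDegree_add_C
  have hdP : ∀ σ, (P σ).natDegree = n σ * (p σ).natDegree := by
    intro σ
    simp only [hPdef, PP]
    rw [natDegree_prod]
    · simp only [natDegree_pow, hdegf]
      rw [← Finset.sum_mul, hn σ]
    · intro j _
      exact (Finset.prod_ne_zero_iff.1 (hP σ)) j (Finset.mem_univ j)
  have hR0 : ∀ σ (j : Fin (D + 1)), (p σ + C ((j : ℕ) : K)) ^ (E σ j - 1) ≠ 0 := by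
    intro σ j
    by_cases h : 1 ≤ E σ j
    · exact pow_ne_zero _ (hfac σ j h)
    · have : E σ j - 1 = 0 := by omega
      rw [this, pow_zero]
      exact one_ne_zero
  have hRne : ∀ σ, RR E p σ ≠ 0 := fun σ => Finset.prod_ne_zero_iff.2 fun j _ => hR0 σ j
  have hdR : ∀ σ, (RR E p σ).natDegree + N σ * (p σ).natDegree = (P σ).natDegree := by
    intro σ
    rw [hdP, ← hEN σ, add_mul]
    congr 1
    unfold RR
    rw [natDegree_prod _ _ fun j _ => hR0 σ j]
    simp only [natDegree_pow, hdegf]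
    rw [← Finset.sum_mul]
  have hdQ : ∀ σ, (Q σ).natDegree = (P σ).natDegree := fun σ => natDegree_C_mul (hu σ)
  -- divisibility
  have hRP : ∀ σ, RR E p σ ∣ Q σ ∧ RR E p σ ∣ derivative (Q σ) := by
    intro σ
    have h1 := dvd_prod_pow (Finset.univ : Finset (Fin (D + 1)))
      (fun j => p σ + C ((j : ℕ) : K)) (E σ)
    refine ⟨h1.1.mul_left _, ?_⟩
    simp only [hQdef]
    rw [derivative_C_mul]
    exact h1.2.mul_left _
  have hRW : ∀ σ τ, RR E p σ ∣ wronskian (Q σ) (Q τ) := by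
    intro σ τ
    rw [wronskian]
    exact dvd_sub ((hRP σ).1.mul_right _) ((hRP σ).2.mul_right _)
  have hW12 : wronskian (Q 0) (Q 1) = wronskian (Q 1) (Q 2) := wronskian_eq_of_sum_zero hrel3
  have hW20 : wronskian (Q 1) (Q 2) = wronskian (Q 2) (Q 0) :=
    wronskian_eq_of_sum_zero (by rw [← hrel3]; ring)
  by_cases hW : wronskian (Q 0) (Q 1) = 0
  · -- all terms are proportional
    obtain ⟨g, α, β, hα, hβ⟩ := wronskian_zero (Q 0) (Q 1) (hQ0 1) hW
    have hα0 : α ≠ 0 := by
      rintro rfl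
      apply hQ0 0
      rw [hα, C_0, zero_mul]
    have hβ0 : β ≠ 0 := by
      rintro rfl
      apply hQ0 1
      rw [hβ, C_0, zero_mul]
    have hγ : Q 2 = C (-α - β) * g := by
      have : Q 2 = -(Q 0) - Q 1 := by linear_combination hrel3
      rw [this, hα, hβ]
      simp only [C_sub, C_neg]
      ring
    have hγ0 : -α - β ≠ 0 := by
      intro h
      apply hQ0 2
      rw [hγ, h, C_0, zero_mul]
    have hall : ∀ σ, ∃ c : K, c ≠ 0 ∧ Q σ = C c * g := by
      intro σ
      fin_cases σ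
      · exact ⟨α, hα0, hα⟩
      · exact ⟨β, hβ0, hβ⟩
      · exact ⟨-α - β, hγ0, hγ⟩
    have hUC : ∀ c : K, c ≠ 0 → IsUnit (C c : K[X]) := fun c hc =>
      isUnit_C.2 (isUnit_iff_ne_zero.2 hc)
    have hdvd : ∀ σ τ (q : K[X]), q ∣ P σ → q ∣ P τ := by
      intro σ τ q hq
      obtain ⟨c, hc, hcσ⟩ := hall σ
      obtain ⟨c', hc', hcτ⟩ := hall τ
      have h1 : q ∣ Q σ := hq.mul_left _
      rw [hcσ, (hUC c hc).dvd_mul_left] at h1
      have h2 : q ∣ Q τ := by rw [hcτ]; exact h1.mul_left _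
      exact (hCu τ).dvd_mul_left.1 h2
    intro σ
    obtain ⟨j, hj⟩ : ∃ j, 2 ≤ E σ j := by
      by_contra hcon
      push Not at hcon
      have h1 : ∀ j, E σ j - 1 = 0 := fun j => by have := hcon j; omega
      have h2 := hEN σ
      simp only [h1, Finset.sum_const_zero, zero_add] at h2
      have h3 := hNs σ
      have h4 := hns σ
      omega
    have h1 : (p σ + C ((j : ℕ) : K)) ^ 2 ∣ P σ := by
      refine (pow_dvd_pow _ hj).trans ?_
      exact Finset.dvd_prod_of_mem
        (fun i : Fin (D + 1) => (p σ + C ((i : ℕ) : K)) ^ E σ i) (Finset.mem_univ j)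
    have h2 := hsq _ (hdvd σ 0 _ h1) (hdvd σ 1 _ h1)
    have h3 := natDegree_eq_zero_of_isUnit h2
    rwa [hdegf] at h3
  · -- Mason's inequality gives a contradiction
    exfalso
    have hcop : ∀ σ τ : Fin 3, σ ≠ τ → IsCoprime (RR E p σ) (RR E p τ) := by
      intro σ τ hστ
      refine isCoprime_of_irreducible_dvd (fun h => hRne σ h.1) fun π hπ h1 h2 => ?_
      have h3 := sq_dvd_of_dvd_RR E p σ π hπ.prime h1
      have h4 := sq_dvd_of_dvd_RR E p τ π hπ.prime h2
      have h3' : π ^ 2 ∣ Q σ := h3.mul_left _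
      have h4' : π ^ 2 ∣ Q τ := h4.mul_left _
      -- then it divides all
      have hall : ∀ ρ, π ^ 2 ∣ Q ρ := by
        have e0 : Q 0 = -(Q 1) - Q 2 := by linear_combination hrel3
        have e1 : Q 1 = -(Q 0) - Q 2 := by linear_combination hrel3
        have e2 : Q 2 = -(Q 0) - Q 1 := by linear_combination hrel3
        intro ρ
        fin_cases σ <;> fin_cases τ <;> fin_cases ρ <;>
          first
          | exact h3'
          | exact h4'
          | (exact absurd rfl hστ)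
          | (simp only [Fin.zero_eta, Fin.mk_one, Fin.reduceFinMk] at h3' h4' ⊢
             rw [e0]; exact dvd_sub (dvd_neg.2 h3') h4')
          | (simp only [Fin.zero_eta, Fin.mk_one, Fin.reduceFinMk] at h3' h4' ⊢
             rw [e0]; exact dvd_sub (dvd_neg.2 h4') h3')
          | (simp only [Fin.zero_eta, Fin.mk_one, Fin.reduceFinMk] at h3' h4' ⊢
             rw [e1]; exact dvd_sub (dvd_neg.2 h3') h4')
          | (simp only [Fin.zero_eta, Fin.mk_one, Fin.reduceFinMk] at h3' h4' ⊢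
             rw [e1]; exact dvd_sub (dvd_neg.2 h4') h3')
          | (simp only [Fin.zero_eta, Fin.mk_one, Fin.reduceFinMk] at h3' h4' ⊢
             rw [e2]; exact dvd_sub (dvd_neg.2 h3') h4')
          | (simp only [Fin.zero_eta, Fin.mk_one, Fin.reduceFinMk] at h3' h4' ⊢
             rw [e2]; exact dvd_sub (dvd_neg.2 h4') h3')
      have hu2 : IsUnit π := by
        have h5 := hsq π ((hCu 0).dvd_mul_left.1 (hall 0)) ((hCu 1).dvd_mul_left.1 (hall 1))
        exact h5
      exact hπ.not_isUnit hu2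
    have hdiv : RR E p 0 * RR E p 1 * RR E p 2 ∣ wronskian (Q 0) (Q 1) := by
      refine IsCoprime.mul_dvd ?_ (IsCoprime.mul_dvd (hcop 0 1 (by decide)) (hRW 0 1) ?_) ?_
      · exact IsCoprime.mul_left (hcop 0 2 (by decide)) (hcop 1 2 (by decide))
      · rw [hW12]; exact hRW 1 2
      · rw [hW12, hW20]; exact hRW 2 0
    have hdeg : (RR E p 0).natDegree + (RR E p 1).natDegree + (RR E p 2).natDegree ≤
        (wronskian (Q 0) (Q 1)).natDegree := by
      have h1 := natDegree_le_of_dvd hdiv hW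
      rwa [natDegree_mul (mul_ne_zero (hRne 0) (hRne 1)) (hRne 2),
        natDegree_mul (hRne 0) (hRne 1)] at h1
    have hw01 := natDegree_wronskian_lt_add hW
    have hw12 := natDegree_wronskian_lt_add (a := Q 1) (b := Q 2) (by rwa [← hW12])
    have hw20 := natDegree_wronskian_lt_add (a := Q 2) (b := Q 0) (by rwa [← hW20, ← hW12])
    rw [← hW12] at hw12
    rw [← hW20, ← hW12] at hw20
    rw [hdQ, hdQ] at hw01 hw12 hw20
    have hd0 := hdR 0
    have hd1 := hdR 1
    have hd2 := hdR 2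
    -- T = ∑ N σ deg p σ
    set T : ℕ := N 0 * (p 0).natDegree + N 1 * (p 1).natDegree + N 2 * (p 2).natDegree with hT
    have hlt : ∀ σ, (P σ).natDegree < T := by
      intro σ
      fin_cases σ
      · show (P 0).natDegree < T
        omega
      · show (P 1).natDegree < T
        omega
      · show (P 2).natDegree < T
        omega
    -- real inequality
    have hTle : (T : ℝ) ≤ ∑ σ, (1 + (s σ : ℝ)) / n σ * (P σ).natDegree := by
      rw [Fin.sum_univ_three, hT]
      push_cast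
      have hterm : ∀ σ, (N σ : ℝ) * ((p σ).natDegree : ℝ) ≤
          (1 + (s σ : ℝ)) / n σ * (P σ).natDegree := by
        intro σ
        have hn0 : (0 : ℝ) < n σ := by
          have := hns σ
          exact_mod_cast (by omega : 0 < n σ)
        rw [hdP]
        push_cast
        have h1 : (N σ : ℝ) ≤ 1 + s σ := by exact_mod_cast hNs σ
        calc (N σ : ℝ) * ((p σ).natDegree : ℝ) ≤ (1 + s σ) * ((p σ).natDegree : ℝ) := by gcongr
          _ = (1 + (s σ : ℝ)) / n σ * (n σ * (p σ).natDegree) := by field_simp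
      linarith [hterm 0, hterm 1, hterm 2]
    have hT1 : 1 ≤ T := by have := hlt 0; omega
    have hPle : ∀ σ, ((P σ).natDegree : ℝ) ≤ T - 1 := by
      intro σ
      have := hlt σ
      have h2 : (P σ).natDegree + 1 ≤ T := this
      have h3 : (((P σ).natDegree + 1 : ℕ) : ℝ) ≤ T := by exact_mod_cast h2
      push_cast at h3
      linarith
    have hfin : ∑ σ, (1 + (s σ : ℝ)) / n σ * (P σ).natDegree ≤ T - 1 := by
      calc ∑ σ, (1 + (s σ : ℝ)) / n σ * (P σ).natDegree
          ≤ ∑ σ, (1 + (s σ : ℝ)) / n σ * (T - 1) := by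
            refine Finset.sum_le_sum fun σ _ => ?_
            have h0 : (0 : ℝ) ≤ (1 + (s σ : ℝ)) / n σ := by positivity
            exact mul_le_mul_of_nonneg_left (hPle σ) h0
        _ = (∑ σ, (1 + (s σ : ℝ)) / n σ) * (T - 1) := by rw [Finset.sum_mul]
        _ ≤ 1 * (T - 1) := by
            have h0 : (0 : ℝ) ≤ (T : ℝ) - 1 := by
              have : (1 : ℝ) ≤ T := by exact_mod_cast hT1
              linarith
            exact mul_le_mul_of_nonneg_right hsum h0
        _ = T - 1 := one_mul _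
    linarith

end Pool.Agent.P8H71.UB
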