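import Pool.Agent.P8H51.UB.Stm

/-! Packages VAL and SQ of the project UB. -/

set_option autoImplicit false

namespace Pool.Agent.P8H71.UB

open Polynomial Pool.Agent.P8H51.UB

theorem prod_gt (t : ℝ) (ht : 1 ≤ t) (s : Multiset ℝ) (hs : ∀ x ∈ s, t < x) :
    s ≠ 0 → t < s.prod := by
  induction s using Multiset.induction_on with
  | empty => intro h; exact absurd rfl h
  | cons a s ih =>
    intro _
    rw [Multiset.prod_cons]
    have ha : t < a := hs a (Multiset.mem_cons_self a s)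
    by_cases h0 : s = 0
    · subst h0; simpa using ha
    · have h1 := ih (fun x hx => hs x (Multiset.mem_cons_of_mem hx)) h0
      nlinarith

theorem val : S_VAL := by
  intro d β t hd hroots
  by_cases ht : t = 0
  · exact Or.inr ht
  left
  have ht1 : (1 : ℝ) ≤ t := by exact_mod_cast Nat.one_le_iff_ne_zero.2 ht
  have hinj : Function.Injective (algebraMap ℤ ℂ) := by
    intro a b h; simpa using h
  set D : ℂ[X] := d.map (algebraMap ℤ ℂ) with hD
  have hd0 : d ≠ 0 := by rintro rfl; simp at hd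
  have hD0 : D ≠ 0 := by rwa [hD, Ne, Polynomial.map_eq_zero_iff hinj]
  have hsplit : D.Splits := IsAlgClosed.splits D
  have hev : D.eval (β : ℂ) = ((d.eval (β : ℤ) : ℤ) : ℂ) := by
    have h1 : D.eval (algebraMap ℤ ℂ (β : ℤ)) = algebraMap ℤ ℂ (d.eval (β : ℤ)) :=
      Polynomial.eval_map_apply (p := d) (algebraMap ℤ ℂ) (β : ℤ)
    simpa only [eq_intCast, Int.cast_natCast] using h1
  have hprod := hsplit.eval_eq_prod_roots (β : ℂ)
  have hlc : (1 : ℝ) ≤ ‖D.leadingCoeff‖ := by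
    rw [hD, leadingCoeff_map_of_injective hinj]
    have h1 : (1 : ℤ) ≤ |d.leadingCoeff| := Int.one_le_abs (leadingCoeff_ne_zero.2 hd0)
    have h2 : ‖(algebraMap ℤ ℂ) d.leadingCoeff‖ = ((|d.leadingCoeff| : ℤ) : ℝ) := by simp
    rw [h2]; exact_mod_cast h1
  have hnorm : ‖(D.roots.map ((β : ℂ) - ·)).prod‖ = ((D.roots.map ((β : ℂ) - ·)).map norm).prod := by
    have := map_multiset_prod (normHom : ℂ →*₀ ℝ) (D.roots.map ((β : ℂ) - ·))
    simpa using this
  have hcard : D.roots ≠ 0 := by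
    intro h
    have h1 := hsplit.natDegree_eq_card_roots
    rw [h, hD, natDegree_map_eq_of_injective hinj] at h1
    simp at h1
    omega
  have hbig : (t : ℝ) < ‖(D.roots.map ((β : ℂ) - ·)).prod‖ := by
    rw [hnorm]
    refine prod_gt t ht1 _ ?_ ?_
    · intro x hx
      rw [Multiset.mem_map] at hx
      obtain ⟨y, hy, rfl⟩ := hx
      rw [Multiset.mem_map] at hy
      obtain ⟨ρ, hρ, rfl⟩ := hy
      have hρ0 : aeval ρ d = 0 := by
        rw [mem_roots hD0, IsRoot.def, hD, eval_map] at hρ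
        rwa [aeval_def]
      have h1 := hroots ρ hρ0
      have h2 : ‖(β : ℂ)‖ - ‖ρ‖ ≤ ‖(β : ℂ) - ρ‖ := norm_sub_norm_le _ _
      rw [Complex.norm_natCast] at h2
      linarith
    · simpa using hcard
  have hfin : (t : ℝ) < ‖D.eval (β : ℂ)‖ := by
    rw [hprod, norm_mul]
    have h0 : 0 ≤ ‖(D.roots.map ((β : ℂ) - ·)).prod‖ := norm_nonneg _
    nlinarith
  rw [hev] at hfin
  have h3 : ‖((d.eval (β : ℤ) : ℤ) : ℂ)‖ = ((|d.eval (β : ℤ)| : ℤ) : ℝ) := by
    rw [Complex.norm_intCast]; simp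
  rw [h3] at hfin
  exact_mod_cast hfin

theorem sq : S_SQ := by
  intro f g q hf hqf hqg hq
  have hinjZ : Function.Injective (Int.castRingHom ℚ) := Int.cast_injective
  have hq0 : q ≠ 0 := by
    rintro rfl
    rw [zero_pow two_ne_zero, zero_dvd_iff, Polynomial.map_eq_zero_iff hinjZ] at hqf
    exact hf hqf
  obtain ⟨b, hb, hbq⟩ := IsLocalization.integerNormalization_spec (nonZeroDivisors ℤ) q
  set e : ℤ[X] := IsLocalization.integerNormalization (nonZeroDivisors ℤ) q with he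
  have hb0 : b ≠ 0 := nonZeroDivisors.ne_zero hb
  have hbQ : (b : ℚ) ≠ 0 := by exact_mod_cast hb0
  have heq : e.map (Int.castRingHom ℚ) = C (b : ℚ) * q := by
    have h1 : e.map (Int.castRingHom ℚ) = b • q := hbq
    rw [h1]
    rw [← Int.cast_smul_eq_zsmul ℚ b q, Polynomial.smul_eq_C_mul]
  have he0 : e ≠ 0 := by
    intro h
    rw [h, Polynomial.map_zero] at heq
    exact (mul_ne_zero (by simpa using hbQ) hq0) heq.symm
  set d : ℤ[X] := e.primPart with hd
  have hprim : d.IsPrimitive := e.isPrimitive_primPart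
  have hcont : e = C e.content * d := e.eq_C_content_mul_primPart
  have hc0 : (e.content : ℚ) ≠ 0 := by
    have : e.content ≠ 0 := by rwa [Ne, content_eq_zero_iff]
    exact_mod_cast this
  -- d.map is a unit multiple of q
  have hdq : d.map (Int.castRingHom ℚ) = C ((e.content : ℚ)⁻¹ * b) * q := by
    have h1 : C (e.content : ℚ) * d.map (Int.castRingHom ℚ) = C (b : ℚ) * q := by
      rw [← heq]
      conv_rhs => rw [hcont]
      rw [Polynomial.map_mul, Polynomial.map_C]
      rfl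
    rw [C_mul, mul_assoc, ← h1, ← mul_assoc, ← C_mul, inv_mul_cancel₀ hc0, C_1, one_mul]
  have hunit : IsUnit (C ((e.content : ℚ)⁻¹ * b) : ℚ[X]) := by
    rw [isUnit_C, isUnit_iff_ne_zero]
    exact mul_ne_zero (inv_ne_zero hc0) hbQ
  have hdvd : ∀ h : ℤ[X], q ^ 2 ∣ h.map (Int.castRingHom ℚ) → d ^ 2 ∣ h := by
    intro h hh
    have hp2 : (d ^ 2).IsPrimitive := by rw [pow_two]; exact hprim.mul hprim
    rw [IsPrimitive.Int.dvd_iff_map_cast_dvd_map_cast _ _ hp2, Polynomial.map_pow, hdq, mul_pow]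
    exact ((hunit.pow 2).mul_left_dvd).2 hh
  refine ⟨d, ?_, hdvd f hqf, hdvd g hqg⟩
  rw [← natDegree_map_eq_of_injective hinjZ d, hdq, natDegree_C_mul (by
    exact mul_ne_zero (inv_ne_zero hc0) hbQ)]
  rw [Nat.pos_iff_ne_zero]
  intro h0
  apply hq
  rw [Polynomial.isUnit_iff_degree_eq_zero, degree_eq_natDegree hq0, h0]
  rfl

end Pool.Agent.P8H71.UB
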